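import Pool.Agent.TH901.H2A.Stm

set_option autoImplicit false

namespace Pool.Agent.TH511.H2A.Dih

open Pool.Agent.Helper741 Pool.Agent.TH901.H2A

/-- the abstract dihedral computation -/
theorem alt_apply {U : Type} [AddCommGroup U] [Module ℝ U] (c : ℝ) (n : ℕ) :
    ∀ (k : ℝ) (_ : k ≠ 0) (S T : Module.End ℝ U) (a b : U), S a = -a → S b = b + (2 * c * k) • a →
      T b = -b → T a = a + (2 * c * k⁻¹) • b →
      alt S T n (if Even n then a else b) =
        if Even n then qs c (n + 1) • a + (k⁻¹ * qs c n) • b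
        else (k * qs c (n + 1)) • a + qs c n • b := by
  induction n with
  | zero => intro k hk S T a b _ _ _ _; simp
  | succ n ih =>
    intro k hk S T a b h1 h2 h3 h4
    have h5 := ih k⁻¹ (inv_ne_zero hk) T S b a h3 (by rw [h4]) h1 (by rw [h2, inv_inv])
    rw [inv_inv] at h5
    rw [alt_succ, Module.End.mul_apply]
    by_cases hn : Even n
    · have hn1 : ¬ Even (n + 1) := by simpa [Nat.even_add_one] using hn
      simp only [hn, if_true] at h5
      simp only [hn1, if_false]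
      rw [h5, map_add, map_smul, map_smul, h1, h2, qs_add_two]
      module
    · have hn1 : Even (n + 1) := by simpa [Nat.even_add_one] using hn
      simp only [hn, if_false] at h5
      simp only [hn1, if_true]
      rw [h5, map_add, map_smul, map_smul, h1, h2, qs_add_two]
      have e : k⁻¹ * k = 1 := inv_mul_cancel₀ hk
      have e2 : (k⁻¹ * qs c (n + 1)) • (b + (2 * c * k) • a) + qs c n • -a =
          (2 * c * (k⁻¹ * k) * qs c (n + 1) - qs c n) • a + (k⁻¹ * qs c (n + 1)) • b := by module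
      rw [e2, e, mul_one]

section

variable {B : Type} [Fintype B] [DecidableEq B] (M : CoxeterMatrix B) (κ : B → B → ℝ) (hκ : KC κ)

omit [Fintype B] [DecidableEq B] in
include hκ in
theorem kap_self (i : B) : κ i i = 1 := by
  have h := hκ.2 i i
  have h0 := hκ.1 i i
  nlinarith

theorem co_ee (i j : B) : co M κ i (ee j) = -2 * cc M i j * κ i j := by
  simp [co, ee, LinearMap.sum_apply, Pi.single_apply]

theorem rf_apply (i : B) (v : B → ℝ) : rf M κ hκ i v = v - co M κ i v • ee i := rfl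

theorem rf_self (i : B) : rf M κ hκ i (ee i) = - ee i := by
  rw [rf_apply, co_ee, cc_self, kap_self κ hκ i]
  module

theorem rf_ee (i j : B) : rf M κ hκ i (ee j) = ee j + (2 * cc M i j * κ i j) • ee i := by
  rw [rf_apply, co_ee]
  module

theorem rf_rf (i : B) (v : B → ℝ) : rf M κ hκ i (rf M κ hκ i v) = v := by
  rw [rf_apply M κ hκ i (rf M κ hκ i v), rf_apply, map_sub, map_smul, co_ee, cc_self, kap_self κ hκ i,
    smul_eq_mul]
  module

theorem rf_sq (i : B) : rf M κ hκ i * rf M κ hκ i = 1 := by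
  apply LinearEquiv.ext
  intro v
  exact rf_rf M κ hκ i v

theorem rf_inv (i : B) : (rf M κ hκ i)⁻¹ = rf M κ hκ i := inv_eq_of_mul_eq_one_left (rf_sq M κ hκ i)

omit [Fintype B] [DecidableEq B] in
include hκ in
theorem kap_inv (i j : B) : κ j i = (κ i j)⁻¹ := eq_inv_of_mul_eq_one_right (hκ.2 i j)

theorem alt_toEnd (i j : B) (k : ℕ) (v : B → ℝ) : alt (rf M κ hκ i) (rf M κ hκ j) k v =
    alt ((rf M κ hκ i : (B → ℝ) ≃ₗ[ℝ] (B → ℝ)).toLinearMap : Module.End ℝ (B → ℝ))
      ((rf M κ hκ j : (B → ℝ) ≃ₗ[ℝ] (B → ℝ)).toLinearMap : Module.End ℝ (B → ℝ)) k v := by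
  have h := map_alt (LinearEquiv.automorphismGroup.toLinearMapMonoidHom (R := ℝ) (M := B → ℝ))
    (rf M κ hκ i) (rf M κ hκ j) k
  exact congrArg (fun f : Module.End ℝ (B → ℝ) => f v) h

theorem part2 (i j : B) (k : ℕ) :
    (alt (rf M κ hκ i) (rf M κ hκ j) k) (if Even k then ee i else ee j) =
      if Even k then qs (cc M i j) (k + 1) • ee i + ((κ i j)⁻¹ * qs (cc M i j) k) • ee j
      else (κ i j * qs (cc M i j) (k + 1)) • ee i + qs (cc M i j) k • ee j := by
  rw [alt_toEnd]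
  refine alt_apply (cc M i j) k (κ i j) (hκ.1 i j).ne' _ _ (ee i) (ee j) ?_ ?_ ?_ ?_
  · exact rf_self M κ hκ i
  · exact rf_ee M κ hκ i j
  · exact rf_self M κ hκ j
  · have := rf_ee M κ hκ j i
    rw [← cc_symm M i j, kap_inv κ hκ i j] at this
    exact this

theorem co_rf (i j : B) : co M κ j ∘ₗ (rf M κ hκ i).toLinearMap =
    co M κ j + (2 * cc M i j * (κ i j)⁻¹) • co M κ i := by
  apply LinearMap.ext
  intro v
  have h : co M κ j (rf M κ hκ i v) = co M κ j v + (2 * cc M i j * (κ i j)⁻¹) * co M κ i v := by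
    rw [rf_apply, map_sub, map_smul, co_ee, smul_eq_mul, ← cc_symm M i j, kap_inv κ hκ i j]
    ring
  exact h

theorem co_rf_self (i : B) : co M κ i ∘ₗ (rf M κ hκ i).toLinearMap = - co M κ i := by
  rw [co_rf, cc_self, kap_self κ hκ i]
  module

/-- composition with a reflection -/
noncomputable def cp (i : B) : Module.End ℝ (Module.Dual ℝ (B → ℝ)) :=
  Module.Dual.transpose (rf M κ hκ i).toLinearMap

theorem cp_apply (i : B) (φ : Module.Dual ℝ (B → ℝ)) : cp M κ hκ i φ = φ ∘ₗ (rf M κ hκ i).toLinearMap := rfl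

theorem alt_cp (k : ℕ) : ∀ (i j : B) (φ : Module.Dual ℝ (B → ℝ)), alt (cp M κ hκ i) (cp M κ hκ j) k φ =
    φ ∘ₗ ((alt (rf M κ hκ i) (rf M κ hκ j) k)⁻¹ : (B → ℝ) ≃ₗ[ℝ] (B → ℝ)).toLinearMap := by
  induction k with
  | zero =>
    intro i j φ
    rw [alt_zero, alt_zero, inv_one]
    rfl
  | succ k ih =>
    intro i j φ
    rw [alt_succ, alt_succ, mul_inv_rev, rf_inv, Module.End.mul_apply, cp_apply, ih j i φ]
    rfl

theorem part3 (i j : B) (k : ℕ) : (if Even k then co M κ i else co M κ j) ∘ₗ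
        ((alt (rf M κ hκ i) (rf M κ hκ j) k)⁻¹ : (B → ℝ) ≃ₗ[ℝ] (B → ℝ)).toLinearMap =
      if Even k then qs (cc M i j) (k + 1) • co M κ i + (κ i j * qs (cc M i j) k) • co M κ j
      else ((κ i j)⁻¹ * qs (cc M i j) (k + 1)) • co M κ i + qs (cc M i j) k • co M κ j := by
  rw [← alt_cp]
  have h := alt_apply (cc M i j) k (κ i j)⁻¹ (inv_ne_zero (hκ.1 i j).ne') (cp M κ hκ i) (cp M κ hκ j)
    (co M κ i) (co M κ j) (co_rf_self M κ hκ i) (co_rf M κ hκ i j) (co_rf_self M κ hκ j) (by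
      have := co_rf M κ hκ j i
      rw [← cc_symm M i j, kap_inv κ hκ i j] at this
      exact this)
  rw [inv_inv] at h
  exact h

omit [Fintype B] [DecidableEq B] in
theorem part4 {i j : B} (hij : i ≠ j) (h0 : M i j ≠ 0) (n : ℕ) (hn : n ≤ M i j) :
    qs (cc M i j) (M i j - n) = qs (cc M i j) n := by
  have hs := sin_pos_of_ne M hij h0
  have hm : (M i j : ℝ) ≠ 0 := by exact_mod_cast h0
  have h1 := qs_sin (Real.pi / (M i j : ℝ)) (M i j - n)
  have h2 := qs_sin (Real.pi / (M i j : ℝ)) n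
  have h3 : ((M i j - n : ℕ) : ℝ) * (Real.pi / (M i j : ℝ)) = Real.pi - n * (Real.pi / (M i j : ℝ)) := by
    rw [Nat.cast_sub hn]
    field_simp
  rw [h3, Real.sin_pi_sub, ← h2] at h1
  exact mul_right_cancel₀ hs.ne' h1

theorem pow_ee_i {i j : B} (h : i ≠ j) (h0 : M i j ≠ 0) :
    ((rf M κ hκ i * rf M κ hκ j) ^ M i j) (ee i) = ee i := by
  have h1 := part2 M κ hκ i j (2 * M i j)
  rw [alt_mul_two] at h1
  obtain ⟨h2, h3⟩ := qs_two_mul M h h0
  simpa [h2, h3] using h1

theorem pow_ee_j {i j : B} (h : i ≠ j) (h0 : M i j ≠ 0) :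
    ((rf M κ hκ i * rf M κ hκ j) ^ M i j) (ee j) = ee j := by
  have h1 := pow_ee_i M κ hκ h.symm (by rwa [M.symmetric])
  rw [M.symmetric j i] at h1
  have h2 : (rf M κ hκ i * rf M κ hκ j) ^ M i j * (rf M κ hκ j * rf M κ hκ i) ^ M i j = 1 := by
    have e : rf M κ hκ i * rf M κ hκ j = (rf M κ hκ j * rf M κ hκ i)⁻¹ := by
      rw [mul_inv_rev, rf_inv, rf_inv]
    rw [e, inv_pow, inv_mul_cancel]
  conv_lhs => rw [← h1]
  rw [← LinearEquiv.mul_apply, h2, LinearEquiv.coe_one, id]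

theorem pow_one' {i j : B} (hij : i ≠ j) (h0 : M i j ≠ 0) :
    (rf M κ hκ i * rf M κ hκ j) ^ M i j = 1 := by
  apply LinearEquiv.ext
  intro v
  have hs := sin_pos_of_ne M hij h0
  set c := cc M i j with hc
  have hc2 : 1 - c ^ 2 ≠ 0 := by
    have : Real.sin (Real.pi / (M i j : ℝ)) ^ 2 + c ^ 2 = 1 := Real.sin_sq_add_cos_sq _
    nlinarith
  have hk := (hκ.1 i j).ne'
  set k0 := κ i j with hk0
  set p := co M κ i v with hp
  set r := co M κ j v with hr
  set a := (p + c * (k0 * r)) / (2 * (1 - c ^ 2)) with ha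
  set b := k0⁻¹ * ((c * p + k0 * r) / (2 * (1 - c ^ 2))) with hb
  set v' := v - a • ee i - b • ee j with hv'
  have hcj : cc M j i = c := cc_symm M j i
  have hkj : κ j i = k0⁻¹ := kap_inv κ hκ i j
  have e1 : co M κ i v' = 0 := by
    rw [hv', map_sub, map_sub, map_smul, map_smul, co_ee, co_ee, cc_self, ← hp, ← hc, kap_self κ hκ i,
      smul_eq_mul, smul_eq_mul, ← hk0, ha, hb]
    field_simp
    ring
  have e2 : co M κ j v' = 0 := by
    rw [hv', map_sub, map_sub, map_smul, map_smul, co_ee, co_ee, cc_self, ← hr, hcj, kap_self κ hκ j,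
      smul_eq_mul, smul_eq_mul, hkj, ha, hb]
    field_simp
    ring
  have s1 : rf M κ hκ i v' = v' := by rw [rf_apply, e1]; simp
  have s2 : rf M κ hκ j v' = v' := by rw [rf_apply, e2]; simp
  have s3 : ∀ m : ℕ, ((rf M κ hκ i * rf M κ hκ j) ^ m) v' = v' := by
    intro m
    induction m with
    | zero => simp
    | succ m ih => rw [pow_succ, LinearEquiv.mul_apply, LinearEquiv.mul_apply, s2, s1, ih]
  have hv : v = v' + a • ee i + b • ee j := by rw [hv']; abel
  rw [LinearEquiv.coe_one, id]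
  conv_lhs => rw [hv]
  rw [map_add, map_add, map_smul, map_smul, s3, pow_ee_i M κ hκ hij h0, pow_ee_j M κ hκ hij h0, ← hv]

end

theorem dih_of : Pool.Agent.TH901.H2A.S_dih := by
  intro B _ _ M κ hκ i j hij h0
  exact ⟨alt_comm_of_pow (rf_sq M κ hκ i) (rf_sq M κ hκ j) (pow_one' M κ hκ hij h0),
    part2 M κ hκ i j, part3 M κ hκ i j, part4 M hij h0⟩

end Pool.Agent.TH511.H2A.Dih
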