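import Pool.Agent.TH901.H2A.Stm

set_option autoImplicit false

namespace Pool.Agent.TH511.H2A.Rl

open Pool.Agent.Helper741 Pool.Agent.TH901.H2A

open scoped commutatorElement

/-! ### A central extension of an abelian group -/

section heis

/-- the central extension of `A` by `C` with a biadditive cocycle -/
@[ext] structure Hs {A C : Type} [AddCommGroup A] [AddCommGroup C] (β : A →+ A →+ C) where
  /-- the first component -/
  a : A
  /-- the second component -/
  c : C

variable {A C : Type} [AddCommGroup A] [AddCommGroup C] (β : A →+ A →+ C)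

instance : Mul (Hs β) := ⟨fun x y => ⟨x.a + y.a, x.c + y.c + β x.a y.a⟩⟩
instance : One (Hs β) := ⟨⟨0, 0⟩⟩
instance : Inv (Hs β) := ⟨fun x => ⟨-x.a, -x.c + β x.a x.a⟩⟩

theorem mul_a (x y : Hs β) : (x * y).a = x.a + y.a := rfl
theorem mul_c (x y : Hs β) : (x * y).c = x.c + y.c + β x.a y.a := rfl
theorem one_a : (1 : Hs β).a = 0 := rfl
theorem one_c : (1 : Hs β).c = 0 := rfl
theorem inv_a (x : Hs β) : (x⁻¹).a = -x.a := rfl
theorem inv_c (x : Hs β) : (x⁻¹).c = -x.c + β x.a x.a := rfl

instance : Group (Hs β) := Group.ofLeftAxioms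
  (fun x y z => by
    ext
    · simp only [mul_a]; abel
    · simp only [mul_a, mul_c, map_add, AddMonoidHom.add_apply]; abel)
  (fun x => by
    ext
    · simp only [mul_a, one_a]; abel
    · simp only [mul_c, one_a, one_c, map_zero, AddMonoidHom.zero_apply]; abel)
  (fun x => by
    ext
    · simp only [mul_a, inv_a, one_a]; abel
    · simp only [mul_c, inv_a, inv_c, one_c, map_neg, AddMonoidHom.neg_apply]; abel)

end heis

section model

variable {Γ X C : Type} [Group Γ] [AddCommGroup C] (act : Γ →* Equiv.Perm X) (ω : X → X → C)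

open Classical in
/-- half of the form -/
noncomputable def bb (x y : X) : C := if WellOrderingRel x y then ω x y else 0

/-- the cocycle -/
noncomputable def β : FreeAbelianGroup X →+ FreeAbelianGroup X →+ C :=
  FreeAbelianGroup.lift fun x => FreeAbelianGroup.lift fun y => bb ω x y

theorem β_of (x y : X) : β ω (FreeAbelianGroup.of x) (FreeAbelianGroup.of y) = bb ω x y := by
  unfold β
  rw [FreeAbelianGroup.lift_apply_of, FreeAbelianGroup.lift_apply_of]

theorem bb_sub (h0 : ∀ x, ω x x = 0) (h1 : ∀ x y, ω x y + ω y x = 0) (x y : X) :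
    bb ω x y - bb ω y x = ω x y := by
  unfold bb
  have hxy := h1 x y
  rcases trichotomous_of (WellOrderingRel (α := X)) x y with h | h | h
  · have h' : ¬ WellOrderingRel y x := asymm h
    rw [if_pos h, if_neg h', sub_zero]
  · subst h
    rw [h0 x, sub_self]
  · have h' : ¬ WellOrderingRel x y := asymm h
    rw [if_pos h, if_neg h', zero_sub]
    exact neg_eq_of_add_eq_zero_left hxy

/-- the map to the central extension -/
noncomputable def pi : FreeGroup X →* Hs (β ω) := FreeGroup.lift fun x => ⟨FreeAbelianGroup.of x, 0⟩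

/-- the cochain -/
noncomputable def tt (w : FreeGroup X) : C := (pi ω w).c

/-- the class in the abelianisation -/
noncomputable def ab (w : FreeGroup X) : FreeAbelianGroup X := (pi ω w).a

theorem tt_mul (u v : FreeGroup X) : tt ω (u * v) = tt ω u + tt ω v + β ω (ab ω u) (ab ω v) := by
  unfold tt ab
  rw [map_mul, mul_c]

theorem ab_mul (u v : FreeGroup X) : ab ω (u * v) = ab ω u + ab ω v := by
  unfold ab
  rw [map_mul, mul_a]

theorem ab_one : ab ω (1 : FreeGroup X) = 0 := by
  unfold ab
  rw [map_one, one_a]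

theorem tt_one : tt ω (1 : FreeGroup X) = 0 := by
  unfold tt
  rw [map_one, one_c]

theorem ab_inv (u : FreeGroup X) : ab ω u⁻¹ = - ab ω u := by
  unfold ab
  rw [map_inv, inv_a]

theorem ab_of (x : X) : ab ω (FreeGroup.of x) = FreeAbelianGroup.of x := by
  unfold ab pi
  rw [FreeGroup.lift_apply_of]

theorem ab_comm {w : FreeGroup X} (hw : w ∈ commutator (FreeGroup X)) : ab ω w = 0 := by
  rw [commutator_eq_closure] at hw
  induction hw using Subgroup.closure_induction with
  | mem w hw =>
    obtain ⟨u, v, rfl⟩ := hw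
    rw [commutatorElement_def, ab_mul, ab_mul, ab_mul, ab_inv, ab_inv]
    abel
  | one => exact ab_one ω
  | mul u v _ _ hu hv => rw [ab_mul, hu, hv, add_zero]
  | inv u _ hu => rw [ab_inv, hu, neg_zero]

theorem tt_commEl (u v : FreeGroup X) : tt ω ⁅u, v⁆ = β ω (ab ω u) (ab ω v) - β ω (ab ω v) (ab ω u) := by
  have h0 : ab ω ⁅u, v⁆ = 0 := ab_comm ω (Subgroup.commutator_mem_commutator (Subgroup.mem_top u) (Subgroup.mem_top v))
  have h1 : u * v = ⁅u, v⁆ * (v * u) := by rw [commutatorElement_def]; group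
  have h2 := tt_mul ω ⁅u, v⁆ (v * u)
  rw [← h1, tt_mul, h0, map_zero, AddMonoidHom.zero_apply, tt_mul, add_zero] at h2
  have h3 : tt ω u + tt ω v + β ω (ab ω u) (ab ω v) -
      (tt ω v + tt ω u + β ω (ab ω v) (ab ω u)) = tt ω ⁅u, v⁆ := by
    rw [h2]; abel
  rw [← h3]
  abel

theorem tt_mul_comm {u : FreeGroup X} (hu : u ∈ commutator (FreeGroup X)) (v : FreeGroup X) :
    tt ω (u * v) = tt ω u + tt ω v := by
  rw [tt_mul, ab_comm ω hu, map_zero, AddMonoidHom.zero_apply, add_zero]

theorem tt_inv_comm {u : FreeGroup X} (hu : u ∈ commutator (FreeGroup X)) : tt ω u⁻¹ = - tt ω u := by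
  have h := tt_mul_comm ω hu u⁻¹
  rw [mul_inv_cancel, tt_one] at h
  exact (neg_eq_of_add_eq_zero_right h.symm).symm

theorem tt_conj (n : FreeGroup X) {w : FreeGroup X} (hw : w ∈ commutator (FreeGroup X)) :
    tt ω (n * w * n⁻¹) = tt ω w := by
  have h1 : n * w * n⁻¹ = ⁅n, w⁆ * w := by rw [commutatorElement_def]; group
  have h2 : ⁅n, w⁆ ∈ commutator (FreeGroup X) :=
    Subgroup.commutator_mem_commutator (Subgroup.mem_top _) (Subgroup.mem_top _)
  rw [h1, tt_mul_comm ω h2, tt_commEl, ab_comm ω hw, map_zero, map_zero, AddMonoidHom.zero_apply]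
  abel

/-- the action on the free group -/
def ph : Γ →* MulAut (FreeGroup X) where
  toFun g := FreeGroup.freeGroupCongr (act g)
  map_one' := by
    rw [map_one]
    ext w
    show FreeGroup.map _ w = w
    exact FreeGroup.map.id' w
  map_mul' g h := by
    rw [map_mul]
    ext w
    show FreeGroup.map _ w = FreeGroup.map _ (FreeGroup.map _ w)
    rw [FreeGroup.map.comp]
    rfl

theorem ph_of (g : Γ) (x : X) : ph act g (FreeGroup.of x) = FreeGroup.of (act g x) :=
  FreeGroup.map.of

/-- the alternating form -/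
noncomputable def OM : FreeAbelianGroup X →+ FreeAbelianGroup X →+ C := β ω - (β ω).flip

theorem OM_apply (a b : FreeAbelianGroup X) : OM ω a b = β ω a b - β ω b a := rfl

theorem OM_inv (h0 : ∀ x, ω x x = 0) (h1 : ∀ x y, ω x y + ω y x = 0)
    (h2 : ∀ g x y, ω (act g x) (act g y) = ω x y) (g : Γ) (u v : FreeGroup X) :
    OM ω (ab ω (ph act g u)) (ab ω (ph act g v)) = OM ω (ab ω u) (ab ω v) := by
  have e : ∀ w : FreeGroup X, ab ω (ph act g w) = FreeAbelianGroup.map (act g) (ab ω w) := by
    intro w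
    induction w using FreeGroup.induction_on with
    | C1 => rw [map_one, ab_one, map_zero]
    | of x =>
      rw [ph_of, ab_of, ab_of]
      exact (FreeAbelianGroup.map_of_apply x).symm
    | inv_of x h => rw [map_inv, ab_inv, h, ab_inv, map_neg]
    | mul x y hx hy => rw [map_mul, ab_mul, hx, hy, ab_mul, map_add]
  rw [e, e]
  generalize ab ω u = a
  generalize ab ω v = b
  have h3 : ((OM ω).comp (FreeAbelianGroup.map (act g))).flip.comp (FreeAbelianGroup.map (act g)) = (OM ω).flip := by
    apply FreeAbelianGroup.lift_ext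
    intro y
    apply FreeAbelianGroup.lift_ext
    intro x
    show OM ω (FreeAbelianGroup.map (act g) (FreeAbelianGroup.of x))
      (FreeAbelianGroup.map (act g) (FreeAbelianGroup.of y)) = OM ω (FreeAbelianGroup.of x) (FreeAbelianGroup.of y)
    rw [FreeAbelianGroup.map_of_apply, FreeAbelianGroup.map_of_apply, OM_apply, OM_apply, β_of, β_of, β_of, β_of,
      bb_sub ω h0 h1, bb_sub ω h0 h1, h2]
  exact congrArg (fun f : FreeAbelianGroup X →+ FreeAbelianGroup X →+ C => f b a) h3

theorem tt_ph (h0 : ∀ x, ω x x = 0) (h1 : ∀ x y, ω x y + ω y x = 0)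
    (h2 : ∀ g x y, ω (act g x) (act g y) = ω x y) (g : Γ) {w : FreeGroup X}
    (hw : w ∈ commutator (FreeGroup X)) :
    ph act g w ∈ commutator (FreeGroup X) ∧ tt ω (ph act g w) = tt ω w := by
  rw [commutator_eq_closure] at hw
  induction hw using Subgroup.closure_induction with
  | mem w hw =>
    obtain ⟨u, v, rfl⟩ := hw
    rw [map_commutatorElement]
    refine ⟨Subgroup.commutator_mem_commutator (Subgroup.mem_top _) (Subgroup.mem_top _), ?_⟩
    rw [tt_commEl, tt_commEl]
    exact OM_inv act ω h0 h1 h2 g u v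
  | one => exact ⟨by rw [map_one]; exact one_mem _, by rw [map_one]⟩
  | mul u v hu' hv' hu hv =>
    rw [← commutator_eq_closure] at hu' hv'
    exact ⟨by rw [map_mul]; exact mul_mem hu.1 hv.1,
      by rw [map_mul, tt_mul_comm ω hu.1, hu.2, hv.2, tt_mul_comm ω hu']⟩
  | inv u hu' hu =>
    rw [← commutator_eq_closure] at hu'
    exact ⟨by rw [map_inv]; exact inv_mem hu.1,
      by rw [map_inv, tt_inv_comm ω hu.1, hu.2, tt_inv_comm ω hu']⟩

/-- the kernel -/
def KR : Subgroup ((FreeGroup X ⋊[ph act] Γ) × Multiplicative C) where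
  carrier := {p | ∃ w ∈ commutator (FreeGroup X), p = (SemidirectProduct.inl w, Multiplicative.ofAdd (-tt ω w))}
  one_mem' := ⟨1, one_mem _, by rw [map_one, tt_one, neg_zero, ofAdd_zero]; rfl⟩
  mul_mem' := by
    rintro _ _ ⟨u, hu, rfl⟩ ⟨v, hv, rfl⟩
    refine ⟨u * v, mul_mem hu hv, ?_⟩
    rw [map_mul, tt_mul_comm ω hu, neg_add, ofAdd_add]
    rfl
  inv_mem' := by
    rintro _ ⟨u, hu, rfl⟩
    refine ⟨u⁻¹, inv_mem hu, ?_⟩
    rw [map_inv, tt_inv_comm ω hu, ofAdd_neg]
    rfl

theorem KR_normal (h0 : ∀ x, ω x x = 0) (h1 : ∀ x y, ω x y + ω y x = 0)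
    (h2 : ∀ g x y, ω (act g x) (act g y) = ω x y) : (KR act ω).Normal := by
  refine ⟨?_⟩
  rintro _ ⟨w, hw, rfl⟩ ⟨p, z⟩
  obtain ⟨k1, k2⟩ := tt_ph act ω h0 h1 h2 p.right hw
  refine ⟨p.left * ph act p.right w * p.left⁻¹, ?_, ?_⟩
  · have hN : (commutator (FreeGroup X)).Normal := inferInstance
    exact hN.conj_mem _ k1 _
  · rw [tt_conj ω _ k1, k2]
    refine Prod.ext ?_ ?_
    · show p * SemidirectProduct.inl w * p⁻¹ = _
      have hp : p = SemidirectProduct.inl p.left * SemidirectProduct.inr p.right :=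
        (SemidirectProduct.inl_left_mul_inr_right p).symm
      have e2 : SemidirectProduct.inr p.right * SemidirectProduct.inl w =
          (SemidirectProduct.inl (ph act p.right w) * SemidirectProduct.inr p.right :
            FreeGroup X ⋊[ph act] Γ) := by
        rw [SemidirectProduct.inl_aut, map_inv, inv_mul_cancel_right]
      conv_lhs => rw [hp]
      rw [mul_inv_rev, mul_assoc (SemidirectProduct.inl p.left) (SemidirectProduct.inr p.right), e2,
        map_mul, map_mul, map_inv]
      group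
    · show z * Multiplicative.ofAdd (-tt ω w) * z⁻¹ = _
      rw [mul_comm z, mul_inv_cancel_right]

end model

/-- the group with prescribed commutators -/
theorem lemL (Γ X C : Type) [Group Γ] [AddCommGroup C] (act : Γ →* Equiv.Perm X) (ω : X → X → C)
    (h0 : ∀ x, ω x x = 0) (h1 : ∀ x y, ω x y + ω y x = 0)
    (h2 : ∀ g x y, ω (act g x) (act g y) = ω x y) :
    ∃ (G : Type) (_ : Group G) (ι : Multiplicative C →* G) (e : X → G) (u : Γ →* G),
      Function.Injective ι ∧ (∀ x g, ι x * g = g * ι x) ∧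
      (∀ g x, u g * e x = e (act g x) * u g) ∧
      ∀ x y, e x * e y = e y * e x * ι (Multiplicative.ofAdd (ω x y)) := by
  have hN := KR_normal act ω h0 h1 h2
  refine ⟨((FreeGroup X ⋊[ph act] Γ) × Multiplicative C) ⧸ KR act ω, inferInstance,
    (QuotientGroup.mk' _).comp (MonoidHom.inr _ _),
    fun x => QuotientGroup.mk' _ (SemidirectProduct.inl (FreeGroup.of x), 1),
    (QuotientGroup.mk' _).comp ((MonoidHom.inl _ _).comp SemidirectProduct.inr), ?_, ?_, ?_, ?_⟩
  · rw [injective_iff_map_eq_one]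
    intro z hz
    have hz' : ((1 : FreeGroup X ⋊[ph act] Γ), z) ∈ KR act ω := (QuotientGroup.eq_one_iff _).1 hz
    obtain ⟨w, hw, hwz⟩ := hz'
    have e1 := congrArg Prod.fst hwz
    have e2 := congrArg Prod.snd hwz
    have e3 : w = 1 := SemidirectProduct.inl_injective (by rw [map_one]; exact e1.symm)
    have e4 : z = Multiplicative.ofAdd (-tt ω w) := e2
    rw [e4, e3, tt_one, neg_zero, ofAdd_zero]
  · intro z g
    obtain ⟨⟨p, z'⟩, rfl⟩ := QuotientGroup.mk'_surjective _ g
    show QuotientGroup.mk' (KR act ω) ((1 : FreeGroup X ⋊[ph act] Γ), z) * QuotientGroup.mk' _ (p, z') =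
      QuotientGroup.mk' _ (p, z') * QuotientGroup.mk' _ ((1 : FreeGroup X ⋊[ph act] Γ), z)
    rw [← map_mul, ← map_mul, Prod.mk_mul_mk, Prod.mk_mul_mk, one_mul, mul_one, mul_comm z]
  · intro g x
    show QuotientGroup.mk' (KR act ω) ((SemidirectProduct.inr g : FreeGroup X ⋊[ph act] Γ), (1 : Multiplicative C)) *
      QuotientGroup.mk' _ (SemidirectProduct.inl (FreeGroup.of x), 1) =
      QuotientGroup.mk' _ (SemidirectProduct.inl (FreeGroup.of (act g x)), 1) *
      QuotientGroup.mk' _ ((SemidirectProduct.inr g : FreeGroup X ⋊[ph act] Γ), (1 : Multiplicative C))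
    rw [← map_mul, ← map_mul, Prod.mk_mul_mk, Prod.mk_mul_mk]
    congr 2
    rw [← ph_of, SemidirectProduct.inl_aut, map_inv, inv_mul_cancel_right]
  · intro x y
    show QuotientGroup.mk' (KR act ω) (SemidirectProduct.inl (FreeGroup.of x), 1) *
      QuotientGroup.mk' _ (SemidirectProduct.inl (FreeGroup.of y), 1) =
      QuotientGroup.mk' _ (SemidirectProduct.inl (FreeGroup.of y), 1) *
      QuotientGroup.mk' _ (SemidirectProduct.inl (FreeGroup.of x), 1) *
      QuotientGroup.mk' _ ((1 : FreeGroup X ⋊[ph act] Γ), Multiplicative.ofAdd (ω x y))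
    rw [← map_mul, ← map_mul, ← map_mul, Prod.mk_mul_mk, Prod.mk_mul_mk, Prod.mk_mul_mk, ← map_mul, ← map_mul,
      mul_one, mul_one, one_mul]
    symm
    rw [QuotientGroup.mk'_apply, QuotientGroup.mk'_apply, QuotientGroup.eq]
    have hc : (FreeGroup.of y * FreeGroup.of x)⁻¹ * (FreeGroup.of x * FreeGroup.of y) =
        ⁅(FreeGroup.of x)⁻¹, (FreeGroup.of y)⁻¹⁆ := by
      rw [commutatorElement_def]; group
    refine ⟨⁅(FreeGroup.of x)⁻¹, (FreeGroup.of y)⁻¹⁆,
      Subgroup.commutator_mem_commutator (Subgroup.mem_top _) (Subgroup.mem_top _), ?_⟩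
    rw [← hc]
    refine Prod.ext ?_ ?_
    · show (SemidirectProduct.inl (FreeGroup.of y * FreeGroup.of x))⁻¹ *
        (SemidirectProduct.inl (FreeGroup.of x * FreeGroup.of y) : FreeGroup X ⋊[ph act] Γ) = _
      rw [← map_inv, ← map_mul]
    show (Multiplicative.ofAdd (ω x y))⁻¹ * 1 = _
    rw [hc, mul_one, tt_commEl, ab_inv, ab_inv, ab_of, ab_of, ← ofAdd_neg]
    congr 2
    simp only [map_neg, AddMonoidHom.neg_apply, neg_neg]
    rw [β_of, β_of, bb_sub ω h0 h1]

section words

variable {Γ X C G : Type} [Group Γ] [AddCommGroup C] [Group G] {act : Γ →* Equiv.Perm X} {ω : X → X → C}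
  {ι : Multiplicative C →* G} {e : X → G} {u : Γ →* G}

theorem sq_succ (g h : Γ) (x y : X) (m : ℕ) :
    sq act g h x y (m + 1) = sq act g h x y m ++ [act (alt g h m) (if Even m then x else y)] := by
  unfold TH901.H2A.sq
  rw [List.range_succ, List.map_append, List.map_singleton]

theorem alt_eq (hu : ∀ g x, u g * e x = e (act g x) * u g) (g h : Γ) (x y : X) (m : ℕ) :
    alt (e x * u g) (e y * u h) m = ((sq act g h x y m).map e).prod * u (alt g h m) := by
  induction m with
  | zero => simp [TH901.H2A.sq]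
  | succ m ih =>
    rw [alt_succ', alt_succ', ih, sq_succ, List.map_append, List.prod_append, List.map_singleton,
      List.prod_singleton, map_mul]
    by_cases hm : Even m
    · simp only [if_pos hm]
      rw [mul_assoc, ← mul_assoc (u (alt g h m)), hu]
      simp only [mul_assoc]
    · simp only [if_neg hm]
      rw [mul_assoc, ← mul_assoc (u (alt g h m)), hu]
      simp only [mul_assoc]

theorem move (hc : ∀ x g, ι x * g = g * ι x)
    (he : ∀ x y, e x * e y = e y * e x * ι (Multiplicative.ofAdd (ω x y))) (x : X) (l : List X) :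
    e x * (l.map e).prod = (l.map e).prod * e x * ι (Multiplicative.ofAdd (l.map (ω x)).sum) := by
  induction l with
  | nil => simp
  | cons y l ih =>
    rw [List.map_cons, List.prod_cons, List.map_cons, List.sum_cons, ofAdd_add, map_mul]
    calc e x * (e y * (l.map e).prod) = (e x * e y) * (l.map e).prod := by rw [mul_assoc]
      _ = e y * e x * ι (Multiplicative.ofAdd (ω x y)) * (l.map e).prod := by rw [he]
      _ = e y * (e x * (l.map e).prod) * ι (Multiplicative.ofAdd (ω x y)) := by
          rw [mul_assoc (e y * e x), hc]; simp only [mul_assoc]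
      _ = e y * ((l.map e).prod * e x * ι (Multiplicative.ofAdd (l.map (ω x)).sum)) *
            ι (Multiplicative.ofAdd (ω x y)) := by rw [ih]
      _ = e y * (l.map e).prod * e x * (ι (Multiplicative.ofAdd (ω x y)) *
            ι (Multiplicative.ofAdd (l.map (ω x)).sum)) := by
          rw [hc (Multiplicative.ofAdd (ω x y))]; simp only [mul_assoc]

theorem rev (hc : ∀ x g, ι x * g = g * ι x)
    (he : ∀ x y, e x * e y = e y * e x * ι (Multiplicative.ofAdd (ω x y))) (l : List X) :
    (l.map e).prod = (l.reverse.map e).prod * ι (Multiplicative.ofAdd (sumw ω l)) := by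
  induction l with
  | nil => simp [sumw]
  | cons x l ih =>
    rw [List.map_cons, List.prod_cons, move hc he, ih, List.reverse_cons, List.map_append, List.prod_append,
      List.map_singleton, List.prod_singleton]
    show _ = _ * ι (Multiplicative.ofAdd ((l.map (ω x)).sum + sumw ω l))
    rw [ofAdd_add, map_mul, mul_assoc (l.reverse.map e).prod, hc (Multiplicative.ofAdd (sumw ω l))]
    rw [hc (Multiplicative.ofAdd (l.map (ω x)).sum) (ι (Multiplicative.ofAdd (sumw ω l)))]
    simp only [mul_assoc]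

end words

theorem real_of : Pool.Agent.TH901.H2A.S_real := by
  classical
  intro B Γ X C _ _ M act ω h0 h1 h2 x g hg hx
  obtain ⟨G, _, ι, e, u, hι, hc, hu, he⟩ := lemL Γ X C act ω h0 h1 h2
  let cf : B → B → C := fun i j => if i = j ∨ M i j = 0 then 0 else
    sumw ω (TH901.H2A.sq act (g i) (g j) (x i) (x j) (M i j))
  have c0 : ∀ i j, (i = j ∨ M i j = 0) → cf i j = 0 := fun i j h => if_pos h
  have c1 : ∀ i j, i ≠ j → M i j ≠ 0 → cf i j = sumw ω (TH901.H2A.sq act (g i) (g j) (x i) (x j) (M i j)) :=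
    fun i j h h' => if_neg (not_or.2 ⟨h, h'⟩)
  refine ⟨cf, ⟨G, inferInstance, fun i => e (x i) * u (g i), ι, hι, hc, ?_⟩, c0, c1⟩
  intro i j
  by_cases hij : i = j ∨ M i j = 0
  · rw [c0 i j hij, ofAdd_zero, map_one]
    unfold val
    rcases hij with rfl | h
    · exact mul_inv_cancel _
    · rw [h, alt_zero, alt_zero, inv_one, mul_one]
  · rw [not_or] at hij
    obtain ⟨hij, hm⟩ := hij
    rw [c1 i j hij hm]
    unfold val
    have a1 := alt_eq (act := act) hu (g i) (g j) (x i) (x j) (M i j)
    have a2 := alt_eq (act := act) hu (g j) (g i) (x j) (x i) (M i j)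
    rw [hx i j hij hm, ← hg i j hij hm] at a2
    have a3 := rev (ω := ω) hc he (TH901.H2A.sq act (g i) (g j) (x i) (x j) (M i j))
    show alt (e (x i) * u (g i)) (e (x j) * u (g j)) (M i j) *
      (alt (e (x j) * u (g j)) (e (x i) * u (g i)) (M i j))⁻¹ = _
    rw [a1, a2, a3, ← hc]
    group

end Pool.Agent.TH511.H2A.Rl
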